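import Pool.Agent.Lib.MP_5c0be7_lc.Z.All
import Pool.Agent.Lib.MP_5c0be7_lc.G.Dfn

/-!
The perfect set property for coanalytic sets at an uncountable strong limit cardinal of countable
cofinality gives definable inner models with a measurable of maximal Mitchell order, with a strong
cardinal and with a proper class of strong cardinals.
-/

namespace Pool.Agent.Results.MP_5c0be7_lc.Strongs

open Pool.Agent.Lib.MP_5c0be7_lc

theorem result : HypH → ConA ∧ ConB ∧ ConC := Pool.Agent.KM.main2

end Pool.Agent.Results.MP_5c0be7_lc.Strongs
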